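import Pool.Agent.Lib.MP_2d002d_gt.PM.Interfaces

set_option autoImplicit false

open MeasureTheory Set Filter Topology
open scoped ENNReal Pointwise

namespace Pool.Agent.Lib.MP_2d002d_gt.PM.H92

open Pool.Agent.Lib.MP_2d002d_gt.PM

theorem isOpen_Om (n : ℕ) (α β : ℝ) : IsOpen (Om n α β) := by
  have h1 : IsOpen {p : ℝ × (Fin n → ℝ) | 0 < α + β * p.1} :=
    isOpen_lt continuous_const (by fun_prop)
  have h2 : IsOpen {p : ℝ × (Fin n → ℝ) | ∀ i, 0 < p.2 i} := by
    have : {p : ℝ × (Fin n → ℝ) | ∀ i, 0 < p.2 i} = ⋂ i, {p : ℝ × (Fin n → ℝ) | 0 < p.2 i} := by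
      ext p; simp
    rw [this]
    exact isOpen_iInter_of_finite fun i => isOpen_lt continuous_const (by fun_prop)
  exact h1.inter h2

theorem reg_congr {n : ℕ} {α β : ℝ} {H H' : ℝ × (Fin n → ℝ) → ℝ} (h : Reg α β H)
    (he : ∀ p ∈ Om n α β, H' p = H p) : Reg α β H' := by
  have hev : ∀ p ∈ Om n α β, H' =ᶠ[𝓝 p] H := fun p hp =>
    Filter.mem_of_superset ((isOpen_Om n α β).mem_nhds hp) he
  refine ⟨h.cd.congr he, fun p hp => by rw [he p hp]; exact h.pos p hp, fun p hp c => ?_⟩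
  have e1 : (fun q => Real.log (H' q)) =ᶠ[𝓝 p] fun q => Real.log (H q) :=
    (hev p hp).fun_comp Real.log
  have e2 : fderiv ℝ (fun q => Real.log (H' q)) =ᶠ[𝓝 p] fderiv ℝ (fun q => Real.log (H q)) :=
    e1.fderiv
  rw [e2.fderiv_eq, e1.fderiv_eq]
  exact h.hess p hp c

theorem reg_all (hB : BASE_S) (hS : STEP_S) (hF : FUB_S) (hK : KAPPA_S) (n : ℕ)
    (U : ℝ × (Fin n → ℝ) → ℝ) (S : Fin n → ℝ → ℝ) (α β : ℝ) (hU : Pot U)
    (hP : ∀ i, Prof (S i)) (T : Finset (Fin n)) :
    Reg α β (HR U S α β (Finset.univ \ T)) := by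
  classical
  induction T using Finset.induction_on with
  | empty => simpa using hB n U S α β hU hP
  | insert i T hi ih =>
    have hmem : i ∈ Finset.univ \ T := by simp [hi]
    have hw : WallOK α β i (HR U S α β (Finset.univ \ T)) :=
      hK n U S α β _ i hU hP hmem ih.cd
    have hst := hS n α β (S i) i _ (hP i) ih hw
    have heq : Finset.univ \ insert i T = (Finset.univ \ T).erase i := by
      ext j; simp [not_or]
    rw [heq]
    exact reg_congr hst fun p hp => hF n U S α β _ i hU hP hmem p hp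

theorem sm (hB : BASE_S) (hS : STEP_S) (hF : FUB_S) (hK : KAPPA_S) (hFin : FIN_S)
    (hL : LOGD_S) : SM_S := by
  classical
  intro n U S α β hU hP s₀ s₁ h0 h1
  have hreg : Reg α β (HR U S α β ∅) := by
    have := reg_all hB hS hF hK n U S α β hU hP Finset.univ
    simpa using this
  set H := HR U S α β ∅ with hH
  set D : Set ℝ := {s | 0 < α + β * s} with hD
  have hDo : IsOpen D := isOpen_lt continuous_const (by fun_prop)
  have hDc : Convex ℝ D := by
    intro x hx y hy a b ha hb hab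
    simp only [hD, mem_ofPred_eq, smul_eq_mul] at hx hy ⊢
    have e : α + β * (a * x + b * y) = a * (α + β * x) + b * (α + β * y) := by
      have : α = (a + b) * α := by rw [hab, one_mul]
      calc α + β * (a * x + b * y) = (a + b) * α + β * (a * x + b * y) := by rw [← this]
        _ = _ := by ring
    rw [e]
    rcases ha.lt_or_eq with ha' | ha'
    · have := mul_pos ha' hx
      have := mul_nonneg hb hy.le
      linarith
    · have hb1 : b = 1 := by rw [← ha'] at hab; linarith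
      rw [← ha', hb1]; simpa using hy
  have hin : ∀ s ∈ D, ((s, 1) : ℝ × (Fin n → ℝ)) ∈ Om n α β := fun s hs =>
    ⟨hs, fun i => by simp⟩
  have hLc := (hL n α β H hreg.cd hreg.pos).1
  set L : ℝ × (Fin n → ℝ) → ℝ := fun q => Real.log (H q) with hLdef
  have hOm := isOpen_Om n α β
  have hLat : ∀ s ∈ D, ContDiffAt ℝ 2 L (s, 1) := fun s hs =>
    (hLc _ (hin s hs)).contDiffAt (hOm.mem_nhds (hin s hs))
  have hcurve : ∀ s : ℝ, HasDerivAt (fun t : ℝ => ((t, 1) : ℝ × (Fin n → ℝ)))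
      ((1, 0) : ℝ × (Fin n → ℝ)) s := fun s =>
    (hasDerivAt_id s).prodMk (hasDerivAt_const s (1 : Fin n → ℝ))
  have hd1 : ∀ s ∈ D, HasDerivAt (fun t => L (t, 1)) (fderiv ℝ L (s, 1) (1, 0)) s := by
    intro s hs
    have h := ((hLat s hs).differentiableAt (by norm_num)).hasFDerivAt
    exact h.comp_hasDerivAt s (hcurve s)
  have hd2 : ∀ s ∈ D, HasDerivAt (fun t => fderiv ℝ L (t, 1) ((1, 0) : ℝ × (Fin n → ℝ)))
      (fderiv ℝ (fderiv ℝ L) (s, 1) (1, 0) (1, 0)) s := by
    intro s hs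
    have hc : ContDiffAt ℝ 1 (fderiv ℝ L) (s, 1) := (hLat s hs).fderiv_right (by norm_num)
    have h := (hc.differentiableAt (by norm_num)).hasFDerivAt
    have h2 := h.comp_hasDerivAt s (hcurve s)
    have h3 := h2.clm_apply (hasDerivAt_const s ((1, 0) : ℝ × (Fin n → ℝ)))
    simpa using h3
  have hcon : ConcaveOn ℝ D (fun t => L (t, 1)) := by
    apply concaveOn_of_deriv2_nonpos hDc
    · exact fun s hs => (hd1 s hs).continuousAt.continuousWithinAt
    · rw [hDo.interior_eq]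
      exact fun s hs => (hd1 s hs).differentiableAt.differentiableWithinAt
    · rw [hDo.interior_eq]
      intro s hs
      have he : deriv (fun t => L (t, 1)) =ᶠ[𝓝 s] fun t => fderiv ℝ L (t, 1) (1, 0) :=
        Filter.mem_of_superset (hDo.mem_nhds hs) fun t ht => (hd1 t ht).deriv
      exact ((hd2 s hs).differentiableAt.congr_of_eventuallyEq he).differentiableWithinAt
    · rw [hDo.interior_eq]
      intro s hs
      have he : deriv (fun t => L (t, 1)) =ᶠ[𝓝 s] fun t => fderiv ℝ L (t, 1) (1, 0) :=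
        Filter.mem_of_superset (hDo.mem_nhds hs) fun t ht => (hd1 t ht).deriv
      have e : deriv^[2] (fun t => L (t, 1)) s = fderiv ℝ (fderiv ℝ L) (s, 1) (1, 0) (1, 0) := by
        show deriv (deriv (fun t => L (t, 1))) s = _
        rw [he.deriv_eq]
        exact (hd2 s hs).deriv
      rw [e]
      have := hreg.hess (s, 1) (hin s hs) 0
      simpa using this
  have hmid : L ((s₀ + s₁) / 2, 1) ≥ (L (s₀, 1) + L (s₁, 1)) / 2 := by
    have := hcon.2 (show s₀ ∈ D from h0) (show s₁ ∈ D from h1) (by norm_num : (0:ℝ) ≤ 1/2)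
      (by norm_num : (0:ℝ) ≤ 1/2) (by norm_num)
    simp only [smul_eq_mul] at this
    have e : (1/2 : ℝ) * s₀ + 1/2 * s₁ = (s₀ + s₁) / 2 := by ring
    rw [e] at this
    linarith
  have hm : (s₀ + s₁) / 2 ∈ D := by
    have := hDc (show s₀ ∈ D from h0) (show s₁ ∈ D from h1) (by norm_num : (0:ℝ) ≤ 1/2)
      (by norm_num : (0:ℝ) ≤ 1/2) (by norm_num)
    simp only [smul_eq_mul] at this
    have e : (1/2 : ℝ) * s₀ + 1/2 * s₁ = (s₀ + s₁) / 2 := by ring
    rwa [e] at this
  have hp0 := hreg.pos _ (hin s₀ h0)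
  have hp1 := hreg.pos _ (hin s₁ h1)
  have hpm := hreg.pos _ (hin _ hm)
  have hR : H (s₀, 1) * H (s₁, 1) ≤ H ((s₀ + s₁) / 2, 1) ^ 2 := by
    have hlog : Real.log (H (s₀, 1) * H (s₁, 1)) ≤ Real.log (H ((s₀ + s₁) / 2, 1) ^ 2) := by
      rw [Real.log_mul hp0.ne' hp1.ne', Real.log_pow]
      simp only [hLdef] at hmid
      push_cast
      linarith
    exact (Real.log_le_log_iff (mul_pos hp0 hp1) (pow_pos hpm 2)).1 hlog
  have hE : ∀ s ∈ D, HE U S α β ∅ (s, 1) = ENNReal.ofReal (H (s, 1)) := fun s hs =>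
    (ENNReal.ofReal_toReal (hFin n U S α β ∅ hU hP (s, 1) (hin s hs)).1).symm
  rw [hE s₀ h0, hE s₁ h1, hE _ hm, ← ENNReal.ofReal_mul hp0.le, ← ENNReal.ofReal_pow hpm.le]
  exact ENNReal.ofReal_le_ofReal hR

end Pool.Agent.Lib.MP_2d002d_gt.PM.H92
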